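import Pool.Agent.PSS.StmtsS5

/-!
# Squad PSS, row BOR: the local idempotents of a block are conjugate under `E` (helper7)
-/

open scoped BigOperators TensorProduct

noncomputable section

namespace Pool.Agent.PSS.S5.H7

open Pool.Agent.PFC (tw IsTv Cnr Cz PIn Ctf Lcq PmzStmt PS bi)
open Pool.Agent.PFD.D2b (FrR)
open Pool.Agent.PSS.S0 (IsBQ)
open Pool.Agent.PSS

variable {F V E A : Type} [Field F] [CommGroup V] [Group E] [Ring A] [Algebra F A] {α : V →* A}

theorem cmem {a : A} : a ∈ FxR (cw F α) ⊤ ↔ ∀ v, α v * a = a * α v := by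
  rw [mem_cw]
  exact ⟨fun h v => h v trivial, fun h v _ => h v⟩

theorem cmul {a b : A} (ha : a ∈ FxR (cw F α) ⊤) (hb : b ∈ FxR (cw F α) ⊤) :
    a * b ∈ FxR (cw F α) ⊤ := by
  rw [cmem] at ha hb ⊢
  intro v
  rw [← mul_assoc, ha, mul_assoc, hb, mul_assoc]

/-- conjugation by a unit which induces an automorphism -/
theorem ccj {s : MulAut V} {y y' a : A} (h1 : y * y' = 1) (h2 : y' * y = 1)
    (h3 : ∀ u, y * α u = α (s u) * y) (ha : a ∈ FxR (cw F α) ⊤) :
    y * a * y' ∈ FxR (cw F α) ⊤ := by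
  rw [cmem] at ha ⊢
  intro v
  have e1 : α v * y = y * α (s⁻¹ v) := by rw [h3, MulAut.apply_inv_self]
  have e2 : α (s⁻¹ v) * y' = y' * α v := by
    calc α (s⁻¹ v) * y' = y' * (y * α (s⁻¹ v)) * y' := by rw [← mul_assoc y', h2, one_mul]
      _ = y' * (α v * y) * y' := by rw [e1]
      _ = y' * α v * (y * y') := by noncomm_ring
      _ = y' * α v := by rw [h1, mul_one]
  calc α v * (y * a * y') = α v * y * a * y' := by noncomm_ring
    _ = y * (α (s⁻¹ v) * a) * y' := by rw [e1]; noncomm_ring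
    _ = y * a * (α (s⁻¹ v) * y') := by rw [ha]; noncomm_ring
    _ = y * a * y' * α v := by rw [e2]; noncomm_ring

theorem eqi_symm {j j' : A} (h : Eqi F α j j') : Eqi F α j' j := by
  obtain ⟨p, hp, q, hq, h1, h2, h3, h4, h5, h6⟩ := h
  exact ⟨q, hq, p, hp, h3, h4, h1, h2, h6, h5⟩

theorem eqi_trans {j j' j'' : A} (h : Eqi F α j j') (h' : Eqi F α j' j'') : Eqi F α j j'' := by
  obtain ⟨p, hp, q, hq, h1, h2, h3, h4, h5, h6⟩ := h
  obtain ⟨p', hp', q', hq', g1, g2, g3, g4, g5, g6⟩ := h'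
  refine ⟨p * p', cmul hp hp', q' * q, cmul hq' hq, ?_, ?_, ?_, ?_, ?_, ?_⟩
  · rw [← mul_assoc, h1]
  · rw [mul_assoc, g2]
  · rw [← mul_assoc, g3]
  · rw [mul_assoc, h4]
  · calc p * p' * (q' * q) = p * (p' * q') * q := by noncomm_ring
      _ = p * q := by rw [g5, h2]
      _ = j := h5
  · calc q' * q * (p * p') = q' * (q * p) * p' := by noncomm_ring
      _ = q' * p' := by rw [h6, g4]
      _ = j'' := g6

theorem eqi_conj {s : MulAut V} {y y' j j' : A} (h1 : y * y' = 1) (h2 : y' * y = 1)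
    (h3 : ∀ u, y * α u = α (s u) * y) (h : Eqi F α j j') :
    Eqi F α (y * j * y') (y * j' * y') := by
  obtain ⟨p, hp, q, hq, g1, g2, g3, g4, g5, g6⟩ := h
  have key : ∀ a b : A, y * a * y' * (y * b * y') = y * (a * b) * y' := by
    intro a b
    calc y * a * y' * (y * b * y') = y * a * (y' * y) * b * y' := by noncomm_ring
      _ = y * (a * b) * y' := by rw [h2]; noncomm_ring
  exact ⟨y * p * y', ccj h1 h2 h3 hp, y * q * y', ccj h1 h2 h3 hq, by rw [key, g1],
    by rw [key, g2], by rw [key, g3], by rw [key, g4], by rw [key, g5], by rw [key, g6]⟩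

theorem eqi_unit {w w' j : A} (h1 : w * w' = 1) (h2 : w' * w = 1) (hw : w ∈ FxR (cw F α) ⊤)
    (hw' : w' ∈ FxR (cw F α) ⊤) (hj : j ∈ FxR (cw F α) ⊤) (hjj : j * j = j) :
    Eqi F α (w * j * w') j := by
  refine ⟨w * j, cmul hw hj, j * w', cmul hj hw', ?_, ?_, ?_, ?_, ?_, ?_⟩
  · calc w * j * w' * (w * j) = w * j * (w' * w) * j := by noncomm_ring
      _ = w * (j * j) := by rw [h2]; noncomm_ring
      _ = w * j := by rw [hjj]
  · rw [mul_assoc, hjj]
  · rw [← mul_assoc, hjj]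
  · calc j * w' * (w * j * w') = j * (w' * w) * j * w' := by noncomm_ring
      _ = j * j * w' := by rw [h2, mul_one]
      _ = j * w' := by rw [hjj]
  · calc w * j * (j * w') = w * (j * j) * w' := by noncomm_ring
      _ = w * j * w' := by rw [hjj]
  · calc j * w' * (w * j) = j * (w' * w) * j := by noncomm_ring
      _ = j := by rw [h2, mul_one, hjj]

/-- the first part: every local idempotent of the block is equivalent to a conjugate of `j₀` -/
theorem first (hLEQ : LeqStmt) (hLSU : LsuStmt) (hLCN : LcnStmt) (hMCK : S0.MckStmt)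
    (hBPU : S0.BpuStmt) (hBQX : S0.BqxStmt) (ℓ : ℕ) [Fact ℓ.Prime] [CharP F ℓ] [Fintype V]
    [Finite E] (φ : E →* MulAut V) (hP : IsPGroup ℓ V) (hper : Per F φ α) (huni : Uni φ α)
    {K : Type} [Fintype K] (lam : A →ₗ[F] F) (x y : K → A) (hRF : RF F α lam x y) (n n' : E → A)
    (hn : ∀ e, n e * n' e = 1 ∧ n' e * n e = 1 ∧ ∀ u, n e * α u = α (φ e u) * n e)
    (b j₀ c : A) (hb : ∀ a, b * a = a * b) (hj₀ : Loi F α j₀) (hc : c ∈ FxR (cw F α) ⊤)
    (hs : ∑ k, x k * (j₀ * c * j₀) * y k = b) (j : A) (hj : Loi F α j) (hbj : b * j = j) :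
    ∃ t : E, Eqi F α j (n t * j₀ * n' t) := by
  classical
  haveI : Fintype E := Fintype.ofFinite E
  have hl0 : ((ℓ : ℕ) : F) = 0 := CharP.cast_eq_zero F ℓ
  obtain ⟨B, _, _, αB, β, hβ⟩ := hBQX F V A α ⊤
  obtain ⟨-, -, lamB, KB, _, xB, yB, hRB, hlam⟩ := hBPU ℓ F V E A B K φ α ⊤ αB β lam x y
    φ.ker hl0 hP hper huni hRF hβ (by
      intro e
      rw [MonoidHom.mem_ker]
      constructor
      · intro h q _
        rw [h]
        rfl
      · intro h
        refine MulEquiv.ext fun q => ?_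
        exact h q trivial)
  -- representatives
  have hr : ∀ g : MulAut V, ∃ e : E, (∃ e', φ e' = g) → φ e = g := by
    intro g
    by_cases h : ∃ e', φ e' = g
    · obtain ⟨e, he⟩ := h
      exact ⟨e, fun _ => he⟩
    · exact ⟨1, fun h' => absurd h' h⟩
  choose r hr using hr
  have hr' : ∀ e, φ (r (φ e)) = φ e := fun e => hr _ ⟨e, rfl⟩
  let T : Finset E := Finset.univ.image (fun e => r (φ e))
  have hT : ∀ e : E, ∃! t, t ∈ T ∧ ∀ q ∈ (⊤ : Subgroup V), (φ t)⁻¹ q = (φ e)⁻¹ q := by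
    intro e
    refine ⟨r (φ e), ⟨Finset.mem_image.2 ⟨e, Finset.mem_univ _, rfl⟩, fun q _ => by rw [hr']⟩, ?_⟩
    rintro t ⟨ht, hq⟩
    obtain ⟨e', -, rfl⟩ := Finset.mem_image.1 ht
    have h1 : (φ (r (φ e')))⁻¹ = (φ e)⁻¹ := MulEquiv.ext fun q => hq q trivial
    have h2 : φ e' = φ e := by
      rw [hr'] at h1
      exact inv_injective h1
    show r (φ e') = r (φ e)
    rw [h2]
  have hjc : j₀ * c * j₀ ∈ FxR (cw F α) ⊤ := cmul (cmul hj₀.fx hc) hj₀.fx
  have hM := hMCK ℓ F V E A B K KB φ α ⊤ αB β lam x y lamB xB yB n n' T hl0 hP hper hRF hβ hRB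
    hlam hn hT (j₀ * c * j₀) hjc
  rw [hs] at hM
  choose p hp hpx using fun k => hβ.surj (xB k)
  choose q hq hqy using fun k => hβ.surj (yB k)
  have hbc : b ∈ FxR (cw F α) ⊤ := cmem.2 fun v => (hb _).symm
  -- the summands
  let jt : E → A := fun t => n t * j₀ * n' t
  let ct : E → A := fun t => n t * c * n' t
  have hjt : ∀ t, Loi F α (jt t) := fun t =>
    hLCN F V A α (φ t) j₀ (n t) (n' t) hj₀ (hn t).1 (hn t).2.1 (hn t).2.2
  have hct : ∀ t, ct t ∈ FxR (cw F α) ⊤ := fun t => ccj (hn t).1 (hn t).2.1 (hn t).2.2 hc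
  have hprod : ∀ t, n t * (j₀ * c * j₀) * n' t = jt t * ct t * jt t := by
    intro t
    calc n t * (j₀ * c * j₀) * n' t = n t * j₀ * 1 * c * 1 * j₀ * n' t := by
          rw [mul_one, mul_one]; noncomm_ring
      _ = n t * j₀ * (n' t * n t) * c * (n' t * n t) * j₀ * n' t := by rw [(hn t).2.1]
      _ = jt t * ct t * jt t := by simp only [jt, ct]; noncomm_ring
  let X : (↥T × KB) → A := fun i => p i.2 * jt i.1 * ct i.1 * jt i.1 * q i.2
  have hX : ∀ i, X i ∈ FxR (cw F α) ⊤ := fun i =>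
    cmul (cmul (cmul (cmul (hp _) (hjt _).fx) (hct _)) (hjt _).fx) (hq _)
  have hβsum : ∀ (ι : Type) (s : Finset ι) (f : ι → A), (∀ i, f i ∈ FxR (cw F α) ⊤) →
      β (∑ i ∈ s, f i) = ∑ i ∈ s, β (f i) := by
    intro ι s f hf
    induction s using Finset.induction_on with
    | empty =>
      rw [Finset.sum_empty, Finset.sum_empty]
      exact (hβ.ker 0 (Submodule.zero_mem _)).2 (Submodule.zero_mem _)
    | insert i s his ih =>
      rw [Finset.sum_insert his, Finset.sum_insert his,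
        hβ.add _ (hf i) _ (Submodule.sum_mem _ fun k _ => hf k), ih]
  have hβX : β (∑ i, j * X i * j) = β j := by
    rw [hβsum _ _ _ (fun i => cmul (cmul hj.fx (hX i)) hj.fx)]
    have h1 : ∀ i : ↥T × KB, β (j * X i * j) =
        β j * (xB i.2 * β (n i.1 * (j₀ * c * j₀) * n' i.1) * yB i.2) * β j := by
      intro i
      rw [hprod, hβ.mul _ (cmul hj.fx (hX i)) _ hj.fx, hβ.mul _ hj.fx _ (hX i)]
      have h2 : β (X i) = β (p i.2) * β (jt i.1 * ct i.1 * jt i.1) * β (q i.2) := by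
        have h3 : X i = p i.2 * (jt i.1 * ct i.1 * jt i.1) * q i.2 := by
          simp only [X]
          noncomm_ring
        have h4 : jt (i.1 : E) * ct i.1 * jt i.1 ∈ FxR (cw F α) ⊤ :=
          cmul (cmul (hjt _).fx (hct _)) (hjt _).fx
        rw [h3, hβ.mul _ (cmul (hp _) h4) _ (hq _), hβ.mul _ (hp _) _ h4]
      rw [h2, hpx, hqy]
    rw [Finset.sum_congr rfl fun i _ => h1 i, ← Finset.sum_mul, ← Finset.mul_sum,
      Fintype.sum_prod_type]
    have h5 : ∑ t : ↥T, ∑ k, xB k * β (n (t : E) * (j₀ * c * j₀) * n' (t : E)) * yB k = β b := by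
      rw [hM]
      exact Finset.sum_coe_sort T (fun t => ∑ k, xB k * β (n t * (j₀ * c * j₀) * n' t) * yB k)
    rw [h5, ← hβ.mul _ hj.fx _ hbc, ← hβ.mul _ (cmul hj.fx hbc) _ hj.fx]
    congr 1
    rw [mul_assoc, hbj, hj.id]
  have hker : j - ∑ i, j * X i * j ∈ BKR (cw F α) ⊤ := by
    have hS : ∑ i, j * X i * j ∈ FxR (cw F α) ⊤ :=
      Submodule.sum_mem _ fun i _ => cmul (cmul hj.fx (hX i)) hj.fx
    refine (hβ.ker _ (Submodule.sub_mem _ hj.fx hS)).1 ?_
    have h1 := hβ.add _ (Submodule.sub_mem _ hj.fx hS) _ hS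
    rw [sub_add_cancel, hβX] at h1
    have h2 : β (j - ∑ i, j * X i * j) + β j = 0 + β j := by rw [zero_add]; exact h1.symm
    exact add_right_cancel h2
  obtain ⟨i, hi⟩ := hLSU F V A (↥T × KB) α j X hj hX hker
  refine ⟨i.1, ?_⟩
  rcases hLEQ F V A α j (jt i.1) hj (hjt _) (p i.2) (hp _) (ct i.1 * jt i.1 * q i.2)
    (cmul (cmul (hct _) (hjt _).fx) (hq _)) with h | h
  · refine absurd ?_ hi
    have h3 : j * X i * j = j * p i.2 * jt i.1 * (ct i.1 * jt i.1 * q i.2) * j := by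
      simp only [X]
      noncomm_ring
    rw [h3]
    exact h
  · exact h

theorem bor (hBPT : BptStmt) (hLEQ : LeqStmt) (hLSU : LsuStmt) (hLCN : LcnStmt)
    (hMCK : S0.MckStmt) (hBPU : S0.BpuStmt) (hBQX : S0.BqxStmt) : BorStmt := by
  intro ℓ _ F V E A _ _ _ _ _ _ _ _ φ α hP hC b j j' hb hj hj' hbj hbj'
  obtain ⟨lam, K, _, x, y, hRF, u, hu⟩ := hC.rt
  choose n n' hn1 hn2 hn3 using hC.uni
  obtain ⟨j₀, c, hj₀, -, hc, hs⟩ := hBPT ℓ F V E A K φ α lam x y u hP hC hRF hu b hb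
  have hn : ∀ e, n e * n' e = 1 ∧ n' e * n e = 1 ∧ ∀ u, n e * α u = α (φ e u) * n e :=
    fun e => ⟨hn1 e, hn2 e, hn3 e⟩
  obtain ⟨s, hs1⟩ := first hLEQ hLSU hLCN hMCK hBPU hBQX ℓ φ hP hC.per hC.uni lam x y hRF n n' hn
    b j₀ c hb.cen hj₀ hc hs j hj hbj
  obtain ⟨t, ht1⟩ := first hLEQ hLSU hLCN hMCK hBPU hBQX ℓ φ hP hC.per hC.uni lam x y hRF n n' hn
    b j₀ c hb.cen hj₀ hc hs j' hj' hbj'
  refine ⟨t * s⁻¹, ?_⟩
  intro z z' hz1 hz2 hz3
  have e1 : Eqi F α (z * j * z') (z * (n s * j₀ * n' s) * z') := eqi_conj hz1 hz2 hz3 hs1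
  -- the unit
  have hin : ∀ e u, n' e * α u = α ((φ e)⁻¹ u) * n' e := by
    intro e u
    calc n' e * α u = n' e * α u * (n e * n' e) := by rw [hn1, mul_one]
      _ = n' e * (α (φ e ((φ e)⁻¹ u)) * n e) * n' e := by rw [MulAut.apply_inv_self]; noncomm_ring
      _ = n' e * (n e * α ((φ e)⁻¹ u)) * n' e := by rw [hn3]
      _ = (n' e * n e) * α ((φ e)⁻¹ u) * n' e := by noncomm_ring
      _ = α ((φ e)⁻¹ u) * n' e := by rw [hn2, one_mul]
  have hw : z * n s * n' t ∈ FxR (cw F α) ⊤ := by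
    rw [cmem]
    intro v
    symm
    calc z * n s * n' t * α v = z * n s * (n' t * α v) := by noncomm_ring
      _ = z * (n s * α ((φ t)⁻¹ v)) * n' t := by rw [hin]; noncomm_ring
      _ = (z * α (φ s ((φ t)⁻¹ v))) * n s * n' t := by rw [hn3]; noncomm_ring
      _ = α (φ (t * s⁻¹) (φ s ((φ t)⁻¹ v))) * z * n s * n' t := by rw [hz3]
      _ = α v * (z * n s * n' t) := by
        have h1 : φ (t * s⁻¹) (φ s ((φ t)⁻¹ v)) = v := by
          rw [map_mul, map_inv, MulAut.mul_apply, MulAut.inv_apply_self, MulAut.apply_inv_self]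
        rw [h1]
        noncomm_ring
  have hww : z * n s * n' t * (n t * n' s * z') = 1 := by
    calc z * n s * n' t * (n t * n' s * z') = z * n s * (n' t * n t) * n' s * z' := by
          noncomm_ring
      _ = z * (n s * n' s) * z' := by rw [hn2]; noncomm_ring
      _ = 1 := by rw [hn1, mul_one, hz1]
  have hww' : n t * n' s * z' * (z * n s * n' t) = 1 := by
    calc n t * n' s * z' * (z * n s * n' t) = n t * n' s * (z' * z) * n s * n' t := by
          noncomm_ring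
      _ = n t * (n' s * n s) * n' t := by rw [hz2]; noncomm_ring
      _ = 1 := by rw [hn2, mul_one, hn1]
  have hw' : n t * n' s * z' ∈ FxR (cw F α) ⊤ := by
    rw [cmem] at hw ⊢
    intro v
    calc α v * (n t * n' s * z') = (n t * n' s * z' * (z * n s * n' t)) * α v *
          (n t * n' s * z') := by rw [hww', one_mul]
      _ = n t * n' s * z' * ((z * n s * n' t) * α v) * (n t * n' s * z') := by noncomm_ring
      _ = n t * n' s * z' * (α v * (z * n s * n' t)) * (n t * n' s * z') := by rw [hw]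
      _ = n t * n' s * z' * α v * ((z * n s * n' t) * (n t * n' s * z')) := by noncomm_ring
      _ = n t * n' s * z' * α v := by rw [hww, mul_one]
  have hjt : Loi F α (n t * j₀ * n' t) :=
    hLCN F V A α (φ t) j₀ (n t) (n' t) hj₀ (hn1 t) (hn2 t) (hn3 t)
  have e2 := eqi_unit hww hww' hw hw' hjt.fx hjt.id
  have e3 : z * n s * n' t * (n t * j₀ * n' t) * (n t * n' s * z') =
      z * (n s * j₀ * n' s) * z' := by
    calc z * n s * n' t * (n t * j₀ * n' t) * (n t * n' s * z') =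
          z * n s * (n' t * n t) * j₀ * (n' t * n t) * n' s * z' := by noncomm_ring
      _ = z * (n s * j₀ * n' s) * z' := by rw [hn2]; noncomm_ring
  rw [e3] at e2
  exact eqi_trans e1 (eqi_trans e2 (eqi_symm ht1))

end Pool.Agent.PSS.S5.H7
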