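import Pool.Agent.PSS.StmtsS1c

/-!
# Squad PSS, row TLF: every deformation of the special fibre lifts (helper7)
-/

open scoped BigOperators TensorProduct

noncomputable section

namespace Pool.Agent.PSS.H7

open Pool.Agent.PFD.D2 (Cdv FibG)
open Pool.Agent.PFD.D2b (FrR)
open Finset

/-- the conditions of `Trv` up to the degree `N`, and a condition `I` in each degree -/
structure Tup {K V B : Type} [Field K] [CommGroup V] [Ring B] [Algebra K B] (β : V →* B)
    (W : Subgroup V) (I : ℕ → (B →ₗ[K] B →ₗ[K] B) → Prop) (N : ℕ)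
    (f : ℕ → (B →ₗ[K] B) × (B →ₗ[K] B →ₗ[K] B)) : Prop where
  p0 : (f 0).1 = LinearMap.id
  pw : ∀ n ≤ N, WBl β W (f n).1
  p1 : ∀ n, n + 1 ≤ N → (f (n + 1)).1 1 = 0
  pm : ∀ n ≤ N, ∀ x y, ∑ p ∈ antidiagonal n, (f p.1).1 x * (f p.2).1 y =
    ∑ p ∈ antidiagonal n, (f p.1).1 ((f p.2).2 x y)
  int : ∀ n ≤ N, I n (f n).2

variable {K V B : Type} [Field K] [CommGroup V] [Ring B] [Algebra K B] {β : V →* B}
    {W : Subgroup V} {I : ℕ → (B →ₗ[K] B →ₗ[K] B) → Prop}

theorem Tup.congr {N : ℕ} {f g : ℕ → (B →ₗ[K] B) × (B →ₗ[K] B →ₗ[K] B)}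
    (h : ∀ n ≤ N, f n = g n) (hf : Tup β W I N f) : Tup β W I N g where
  p0 := by rw [← h 0 (Nat.zero_le _)]; exact hf.p0
  pw := fun n hn => by rw [← h n hn]; exact hf.pw n hn
  p1 := fun n hn => by rw [← h (n + 1) hn]; exact hf.p1 n hn
  pm := fun n hn x y => by
    have h1 := hf.pm n hn x y
    have e1 : ∑ p ∈ antidiagonal n, (g p.1).1 x * (g p.2).1 y =
        ∑ p ∈ antidiagonal n, (f p.1).1 x * (f p.2).1 y := by
      refine Finset.sum_congr rfl fun p hp => ?_
      have hp' := Finset.HasAntidiagonal.mem_antidiagonal.1 hp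
      rw [h p.1 (by omega), h p.2 (by omega)]
    have e2 : ∑ p ∈ antidiagonal n, (g p.1).1 ((g p.2).2 x y) =
        ∑ p ∈ antidiagonal n, (f p.1).1 ((f p.2).2 x y) := by
      refine Finset.sum_congr rfl fun p hp => ?_
      have hp' := Finset.HasAntidiagonal.mem_antidiagonal.1 hp
      rw [h p.1 (by omega), h p.2 (by omega)]
    rw [e1, e2, h1]
  int := fun n hn => by rw [← h n hn]; exact hf.int n hn

/-- the coefficients of a trivialisation are determined by the first maps -/
theorem Tup.agree {N : ℕ} {f : ℕ → (B →ₗ[K] B) × (B →ₗ[K] B →ₗ[K] B)} (hf : Tup β W I N f)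
    {P : ℕ → (B →ₗ[K] B)} {m : ℕ → (B →ₗ[K] B →ₗ[K] B)} (hT : Trv β W P m)
    (hP : ∀ n ≤ N, P n = (f n).1) : ∀ n, n ≤ N → m n = (f n).2 := by
  intro n
  induction n using Nat.strong_induction_on with
  | _ n ih =>
    intro hn
    refine LinearMap.ext fun x => LinearMap.ext fun y => ?_
    have h1 := hT.pm n x y
    have h2 := hf.pm n hn x y
    have e1 : ∑ p ∈ antidiagonal n, P p.1 x * P p.2 y =
        ∑ p ∈ antidiagonal n, (f p.1).1 x * (f p.2).1 y := by
      refine Finset.sum_congr rfl fun p hp => ?_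
      have hp' := Finset.HasAntidiagonal.mem_antidiagonal.1 hp
      rw [hP p.1 (by omega), hP p.2 (by omega)]
    have e2 : ∑ p ∈ antidiagonal n, (f p.1).1 ((f p.2).2 x y) =
        ∑ p ∈ antidiagonal n, P p.1 ((f p.2).2 x y) := by
      refine Finset.sum_congr rfl fun p hp => ?_
      have hp' := Finset.HasAntidiagonal.mem_antidiagonal.1 hp
      rw [hP p.1 (by omega)]
    have h3 : ∑ p ∈ antidiagonal n, P p.1 (m p.2 x y - (f p.2).2 x y) = 0 := by
      simp only [map_sub]
      rw [Finset.sum_sub_distrib, ← h1, e1, h2, e2, sub_self]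
    rw [Finset.sum_eq_single ((0, n) : ℕ × ℕ)] at h3
    · rw [hT.p0] at h3
      exact sub_eq_zero.1 h3
    · intro p hp hne
      have hp' := Finset.HasAntidiagonal.mem_antidiagonal.1 hp
      have hlt : p.2 < n := by
        rcases Nat.lt_or_ge p.2 n with h | h
        · exact h
        · exact absurd (Prod.ext (by show p.1 = 0; omega) (by show p.2 = n; omega)) hne
      rw [ih p.2 hlt (by omega), sub_self, map_zero]
    · intro h
      exact absurd (Finset.HasAntidiagonal.mem_antidiagonal.2 (Nat.zero_add n)) h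

/-- the limit argument: from steps for complete trivialisations to a complete trivialisation -/
theorem limTrv (hTRX : TrxStmt) (hTRC : TrcStmt) (hLIM : LimStmt) (N₀ : ℕ)
    (f₀ : ℕ → (B →ₗ[K] B) × (B →ₗ[K] B →ₗ[K] B)) (h0 : Tup β W I N₀ f₀)
    (step : ∀ (P : ℕ → (B →ₗ[K] B)) (m : ℕ → (B →ₗ[K] B →ₗ[K] B)) (N : ℕ), N₀ ≤ N → Trv β W P m →
      (∀ n ≤ N, I n (m n)) → ∃ (P' : ℕ → (B →ₗ[K] B)) (m' : ℕ → (B →ₗ[K] B →ₗ[K] B)),
        Trv β W P' m' ∧ (∀ n ≤ N, P' n = P n) ∧ ∀ n ≤ N + 1, I n (m' n)) :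
    ∃ (P : ℕ → (B →ₗ[K] B)) (m : ℕ → (B →ₗ[K] B →ₗ[K] B)), Trv β W P m ∧
      (∀ n ≤ N₀, P n = (f₀ n).1) ∧ ∀ n, I n (m n) := by
  obtain ⟨f, hf0, hf⟩ := hLIM ((B →ₗ[K] B) × (B →ₗ[K] B →ₗ[K] B))
    (fun N f => N₀ ≤ N ∧ Tup β W I N f)
    (fun N f g h hf => ⟨hf.1, hf.2.congr h⟩)
    (by
      rintro N f ⟨hN, hf⟩
      obtain ⟨m, hm⟩ := hTRX K V B β W (fun n => if n ≤ N then (f n).1 else 0)
        (by simp only [Nat.zero_le, if_true]; exact hf.p0)
        (by
          intro n
          by_cases hn : n ≤ N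
          · simp only [hn, if_true]
            exact hf.pw n hn
          · simp only [hn, if_false]
            intro w _ x
            simp)
        (by
          intro n
          by_cases hn : n + 1 ≤ N
          · simp only [hn, if_true]
            exact hf.p1 n hn
          · simp only [hn, if_false]
            exact LinearMap.zero_apply _)
      have hag := hf.agree hm (fun n hn => by simp only [hn, if_true])
      obtain ⟨P', m', hT', hP', hI'⟩ := step _ m N hN hm
        (fun n hn => by rw [hag n hn]; exact hf.int n hn)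
      have hmm := (hTRC K V B β W _ P' m m' N hm hT' hP').1
      refine ⟨fun n => (P' n, m' n), ?_, by omega, ?_⟩
      · intro n hn
        refine Prod.ext ?_ ?_
        · show P' n = _
          rw [hP' n hn]
          simp only [hn, if_true]
        · show m' n = _
          rw [hmm n hn, hag n hn]
      · exact
          { p0 := hT'.p0
            pw := fun n _ => hT'.pw n
            p1 := fun n _ => hT'.p1 n
            pm := fun n _ x y => hT'.pm n x y
            int := fun n hn => hI' n hn })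
    N₀ f₀ ⟨le_refl _, h0⟩
  have hT : ∀ n, Tup β W I (N₀ + n) f := fun n => (hf (N₀ + n) (Nat.le_add_right _ _)).2
  refine ⟨fun n => (f n).1, fun n => (f n).2, ?_, ?_, ?_⟩
  · exact
      { p0 := (hT 0).p0
        pw := fun n => (hT n).pw n (by omega)
        p1 := fun n => (hT (n + 1)).p1 n (by omega)
        pm := fun n x y => (hT n).pm n (by omega) x y }
  · intro n hn
    show (f n).1 = _
    rw [hf0 n hn]
  · intro n
    exact (hT n).int n (by omega)

theorem tlf (hTRX : TrxStmt) (hTRC : TrcStmt) (hSTT : SttStmt) (hLIM : LimStmt) : TlfStmt := by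
  intro R K F V E A A₀ B κ Ω _ _ _ _ _ _ _ _ _ _ _ _ _ _ _ _ _ _ _ _ _ φ W z α lam x y b c C u cv f
    α₀ D₀ hz hs hu hq
  obtain ⟨P, m, hT, -, hI⟩ := limTrv (β := ia C.i α) (W := W)
    (I := fun n μ => ∀ a₁ a₂, ∃ e, C.i e = μ (C.i a₁) (C.i a₂) ∧
      f.q e = D₀.m n (f.q a₁) (f.q a₂)) hTRX hTRC hLIM 0
    (fun _ => (LinearMap.id, LinearMap.mul K B))
    { p0 := rfl
      pw := fun n _ w _ x => ⟨rfl, rfl⟩
      p1 := fun n hn => absurd hn (by omega)
      pm := fun n hn x y => by
        obtain rfl : n = 0 := by omega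
        simp
      int := fun n hn a₁ a₂ => by
        obtain rfl : n = 0 := by omega
        refine ⟨a₁ * a₂, ?_, ?_⟩
        · rw [map_mul]
          rfl
        · rw [map_mul, D₀.m0] }
    (fun P m N _ hT hI => hSTT R K F V E A A₀ B κ Ω φ W z α lam x y b c C u cv f α₀ D₀ hz hs hu hq
      P m N hT hI)
  exact ⟨P, m, hT, hI⟩

end Pool.Agent.PSS.H7
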